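import Pool.Agent.X165.SurfC

set_option autoImplicit false

/-!
# MP_8228af_gt: affine surface-area domination does not imply volume comparison (n = 3)

`C₁` is the octahedron `|x₁| + |x₂| + |x₃| ≤ 41` truncated by the cube `|x_i| ≤ 32`, and `C₂` is the
octahedron `|x₁| + |x₂| + |x₃| ≤ 40`.  For every affine automorphism `A` of `ℝ³`, the surface area
of `A(C₁)` is at most the surface area of `A(C₂)`, but `Vol C₁ > Vol C₂`.
-/

open MeasureTheory Set Measure

namespace Pool.Agent.Results.MP_8228af_gt.TruncatedOctahedron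

/-- Euclidean `n`-space -/
abbrev E (n : ℕ) := EuclideanSpace ℝ (Fin n)

/-- compact, convex, nonempty interior -/
def IsConvexBody {n : ℕ} (K : Set (E n)) : Prop :=
  Convex ℝ K ∧ IsCompact K ∧ (interior K).Nonempty

/-- symmetric about some point `c` -/
def IsCentrallySymmetric {n : ℕ} (K : Set (E n)) : Prop :=
  ∃ c : E n, ∀ y : E n, c + y ∈ K → c - y ∈ K

/-- the `(n-1)`-dimensional Hausdorff measure of the boundary (normalised so as to agree with
Lebesgue measure on hyperplanes) -/
noncomputable def surfaceArea {n : ℕ} (K : Set (E n)) : ENNReal :=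
  (μHE[n - 1] : Measure (E n)) (frontier K)

/-- `C₂` dominates `C₁` in affine surface area -/
def Dominates {n : ℕ} (C₂ C₁ : Set (E n)) : Prop :=
  ∀ A : E n ≃ᵃ[ℝ] E n, surfaceArea (A '' C₁) ≤ surfaceArea (A '' C₂)

/-- There are centrally symmetric convex bodies `C₁, C₂` in `ℝ³` such that `C₂` dominates `C₁` in
affine surface area, but the volume of `C₁` is larger than that of `C₂`. -/
theorem result : ∃ C₁ C₂ : Set (E 3), IsConvexBody C₁ ∧ IsConvexBody C₂ ∧
    IsCentrallySymmetric C₁ ∧ IsCentrallySymmetric C₂ ∧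
    Dominates C₂ C₁ ∧ volume C₂ < volume C₁ := by
  refine ⟨X165.SF.trun, X165.SF.oct 40,
    ⟨X165.SF.trun_convex, X165.SF.trun_compact, X165.SF.trun_int_ne⟩,
    ⟨X165.SF.oct_convex 40, X165.SF.oct_compact 40, X165.SF.oct_int_ne (by norm_num)⟩,
    ⟨0, ?_⟩, ⟨0, ?_⟩, fun A => X165.SF.domination A, X165.SF.vol_lt⟩
  · intro x hx
    rw [zero_add] at hx
    rw [zero_sub]
    obtain ⟨h1, h2, h3, h4⟩ := hx
    refine ⟨?_, ?_, ?_, ?_⟩
    all_goals simp only [PiLp.neg_apply, abs_neg]
    · exact h1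
    · exact h2
    · exact h3
    · exact h4
  · intro x hx
    rw [zero_add] at hx
    rw [zero_sub]
    have hx : |x 0| + |x 1| + |x 2| ≤ 40 := hx
    change |(-x) 0| + |(-x) 1| + |(-x) 2| ≤ 40
    simpa only [PiLp.neg_apply, abs_neg] using hx

end Pool.Agent.Results.MP_8228af_gt.TruncatedOctahedron
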